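import Mathlib
import Pool.Agent.Q116.BR.Quot

set_option autoImplicit false

namespace Pool.Agent.Results.MP_790f3b_al.NoBrace

universe u

/-- A left brace: `(A, +)` is an abelian group, `(A, *)` is a group on the same set and
`a * (b + c) = a * b - a + a * c` for all `a, b, c`. -/
def IsLeftBrace (A : Type u) [AddCommGroup A] [Group A] : Prop :=
  ∀ a b c : A, a * (b + c) = a * b - a + a * c

/-- A group is nilpotent of class two: it is non-abelian and all commutators are central. -/
def ClassTwo (G : Type u) [Group G] : Prop :=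
  (∃ a b : G, a * b ≠ b * a) ∧ ∀ a b c : G, a⁻¹ * b⁻¹ * a * b * c = c * (a⁻¹ * b⁻¹ * a * b)

/-- There is a countable torsion-free group, nilpotent of class two, which is not isomorphic to the
multiplicative group of any left brace. -/
theorem result : ∃ (G : Type) (_ : Group G),
    ClassTwo G ∧ Countable G ∧ (∀ (g : G) (n : ℕ), n ≠ 0 → g ^ n = 1 → g = 1) ∧
    ∀ (A : Type u) [AddCommGroup A] [Group A], IsLeftBrace A → IsEmpty (G ≃* A) := by
  refine ⟨Pool.Agent.Q116.BR.G, inferInstance, ⟨?_, ?_⟩, ?_, ?_, ?_⟩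
  · by_contra hcon
    push Not at hcon
    have hint : ∀ m n : ℤ, Pool.Agent.Q116.BR.InV m n := by
      intro m n p hp
      exact ⟨fun _ => ⟨.int hp m, .int hp n⟩,
        fun _ _ => ⟨(Pool.Agent.Q116.BR.Op.nat hp p).mul hp (.int hp m), .int hp n⟩,
        fun _ _ => ⟨.int hp m, (Pool.Agent.Q116.BR.Op.nat hp p).mul hp (.int hp n)⟩,
        fun _ _ _ => ⟨(Pool.Agent.Q116.BR.Op.nat hp p).mul hp (.int hp m),
          (Pool.Agent.Q116.BR.Op.nat hp p).mul hp (.int hp n),
          (Pool.Agent.Q116.BR.Op.int hp m).sub hp (.int hp n)⟩⟩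
    have hC : Pool.Agent.Q116.BR.InC 0 := by
      intro p hp
      refine ⟨fun _ => .zero hp, fun _ => ?_⟩
      rw [mul_zero]; exact .zero hp
    let g1 : Pool.Agent.Q116.BR.G := Pool.Agent.Q116.BR.mkG 1 0 0 (by exact_mod_cast hint 1 0)
      (.zero Nat.prime_two) (by simpa using hC)
    let g2 : Pool.Agent.Q116.BR.G := Pool.Agent.Q116.BR.mkG 0 1 0 (by exact_mod_cast hint 0 1)
      (.zero Nat.prime_two) (by simpa using hC)
    have h1 := congrArg Pool.Agent.Q116.BR.Z (hcon g1 g2)
    have h2 : Pool.Agent.Q116.BR.Z (g1 * g2) = 0 + 0 + 1 * 1 := rfl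
    have h3 : Pool.Agent.Q116.BR.Z (g2 * g1) = 0 + 0 + 0 * 0 := rfl
    rw [h2, h3] at h1
    norm_num at h1
  · intro a b c
    have : Pool.Agent.Q116.BR.Cen (a⁻¹ * b⁻¹ * a * b) := by
      constructor
      · simp only [Pool.Agent.Q116.BR.X_mul, Pool.Agent.Q116.BR.X_inv]; ring
      · simp only [Pool.Agent.Q116.BR.Y_mul, Pool.Agent.Q116.BR.Y_inv]; ring
    exact (this.comm c).eq
  · have : Function.Injective (fun g : Pool.Agent.Q116.BR.G =>
        (Pool.Agent.Q116.BR.X g, Pool.Agent.Q116.BR.Y g, Pool.Agent.Q116.BR.Z g)) := by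
      intro a b hab
      simp only [Prod.mk.injEq] at hab
      exact Pool.Agent.Q116.BR.G.ext hab.1 hab.2.1 hab.2.2
    exact this.countable
  · intro g n hn hg
    exact Pool.Agent.Q116.BR.lgG.torsion hn hg
  · intro A _ _ hA
    refine ⟨fun e => ?_⟩
    let _ : AddCommGroup Pool.Agent.Q116.BR.G := e.toEquiv.addCommGroup
    have hadd : ∀ b c : Pool.Agent.Q116.BR.G, e (b + c) = e b + e c := by
      intro b c
      exact e.toEquiv.apply_symm_apply _
    have hsub : ∀ b c : Pool.Agent.Q116.BR.G, e (b - c) = e b - e c := by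
      intro b c
      exact e.toEquiv.apply_symm_apply _
    refine Pool.Agent.Q116.BR.no_brace (fun a b c => ?_)
    apply e.injective
    rw [map_mul, hadd, hadd, hsub, map_mul, map_mul, hA]

end Pool.Agent.Results.MP_790f3b_al.NoBrace
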